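import Mathlib
import Pool.Agent.W406.TW.LT

set_option autoImplicit false

/-! # Twist law for vectors of quadratic twists

For almost all vectors `(D_1, …, D_k)`, the vector of the Legendre symbols `(D_j / p)` behaves, along
every set of primes of a polynomial family of systems of sets of primes, like a random vector of signs.
-/

namespace Pool.Agent.Q233.TL

open Finset Pool.Agent.W406.TW

/-- the sign vectors -/
def Sg (k : ℕ) : Finset (Fin k → ℤ) := Fintype.piFinset fun _ => ({1, -1} : Finset ℤ)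

lemma card_Sg (k : ℕ) : (Sg k).card = 2 ^ k := by
  unfold Sg
  rw [Fintype.card_piFinset]
  simp

/-- the odd primes up to `x` at which some sign vector satisfies `E p` -/
noncomputable def X {k : ℕ} (E : ℕ → (Fin k → ℤ) → Prop) (x : ℕ) : Finset ℕ := by
  classical
  exact (Icc 1 x).filter fun p : ℕ => p.Prime ∧ p ≠ 2 ∧ ∃ s ∈ Sg k, E p s

/-- the number of odd primes `p ≤ x` dividing no `D j` with `E p ((D j / p))_j` -/
noncomputable def cnt {k : ℕ} (E : ℕ → (Fin k → ℤ) → Prop) (D : Fin k → ℤ) (x : ℕ) : ℕ := by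
  classical
  exact ((Icc 1 x).filter fun p : ℕ => p.Prime ∧ p ≠ 2 ∧ (∀ j, ¬ (p : ℤ) ∣ D j) ∧
    E p (fun j => jacobiSym (D j) p)).card

/-- the mean over the sign vectors -/
noncomputable def mean {k : ℕ} (E : ℕ → (Fin k → ℤ) → Prop) (x : ℕ) : ℝ := by
  classical
  exact (∑ p ∈ (Icc 1 x).filter (fun p : ℕ => p.Prime ∧ p ≠ 2),
    (((Sg k).filter (fun s => E p s)).card : ℝ)) / 2 ^ k

open Classical in
lemma mem_X {k : ℕ} {E : ℕ → (Fin k → ℤ) → Prop} {x p : ℕ} :
    p ∈ X E x ↔ (1 ≤ p ∧ p ≤ x) ∧ p.Prime ∧ p ≠ 2 ∧ ∃ s ∈ Sg k, E p s := by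
  unfold X
  rw [mem_filter, mem_Icc]

open Classical in
/-- the Fourier coefficient of `E p` at `S` -/
noncomputable def co {k : ℕ} (E : ℕ → (Fin k → ℤ) → Prop) (S : Finset (Fin k)) (p : ℕ) : ℝ :=
  (∑ s ∈ Sg k, if E p s then ∏ j ∈ S, (s j : ℝ) else 0) / 2 ^ k

lemma abs_sg {k : ℕ} {s : Fin k → ℤ} (hs : s ∈ Sg k) (j : Fin k) : |(s j : ℝ)| = 1 := by
  unfold Sg at hs
  have := (Fintype.mem_piFinset.1 hs) j
  rcases mem_insert.1 this with h | h
  · rw [h]; simp
  · rw [mem_singleton.1 h]; simp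

lemma co_abs {k : ℕ} (E : ℕ → (Fin k → ℤ) → Prop) (S : Finset (Fin k)) (p : ℕ) : |co E S p| ≤ 1 := by
  classical
  unfold co
  rw [abs_div, abs_of_pos (by positivity : (0 : ℝ) < 2 ^ k), div_le_one (by positivity)]
  calc |∑ s ∈ Sg k, if E p s then ∏ j ∈ S, (s j : ℝ) else 0|
      ≤ ∑ s ∈ Sg k, |if E p s then ∏ j ∈ S, (s j : ℝ) else 0| := abs_sum_le_sum_abs _ _
    _ ≤ ∑ s ∈ Sg k, (1 : ℝ) := by
        refine sum_le_sum fun s hs => ?_
        split_ifs
        · rw [abs_prod, prod_congr rfl fun j _ => abs_sg hs j]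
          simp
        · simp
    _ = 2 ^ k := by rw [sum_const, card_Sg]; simp

open Classical in
/-- the smoothed indicator at the prime `p` -/
noncomputable def val {k : ℕ} (E : ℕ → (Fin k → ℤ) → Prop) (D : Fin k → ℤ) (p : ℕ) : ℝ :=
  (∑ s ∈ Sg k, if E p s then ∏ j, (1 + (s j : ℝ) * (jacobiSym (D j) p : ℝ)) else 0) / 2 ^ k

lemma val_eq {k : ℕ} (E : ℕ → (Fin k → ℤ) → Prop) (D : Fin k → ℤ) (p : ℕ) :
    val E D p = ∑ S : Finset (Fin k), co E S p * ∏ j ∈ S, (jacobiSym (D j) p : ℝ) := by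
  classical
  unfold val co
  simp_rw [div_mul_eq_mul_div, ← sum_div]
  congr 1
  simp_rw [sum_mul]
  rw [sum_comm]
  refine sum_congr rfl fun s _ => ?_
  split_ifs with h
  · rw [prod_one_add]
    rw [powerset_univ]
    refine sum_congr rfl fun S _ => ?_
    rw [prod_mul_distrib]
  · simp

lemma jac_pm {D : ℤ} {p : ℕ} (hp : p.Prime) (h : ¬ (p : ℤ) ∣ D) :
    jacobiSym D p = 1 ∨ jacobiSym D p = -1 := by
  rcases jacobiSym.trichotomy D p with h1 | h1 | h1
  · exfalso
    have : NeZero p := ⟨hp.ne_zero⟩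
    have h2 := (jacobiSym.eq_zero_iff_not_coprime).1 h1
    apply h2
    rw [Int.gcd_comm]
    exact Int.isCoprime_iff_gcd_eq_one.1
      (((Nat.prime_iff_prime_int.1 hp).coprime_iff_not_dvd).2 h)
  · left; exact h1
  · right; exact h1

lemma val_good {k : ℕ} (E : ℕ → (Fin k → ℤ) → Prop) (D : Fin k → ℤ) {p : ℕ} (hp : p.Prime)
    (h : ∀ j, ¬ (p : ℤ) ∣ D j) [Decidable (E p (fun j => jacobiSym (D j) p))] :
    val E D p = if E p (fun j => jacobiSym (D j) p) then 1 else 0 := by
  classical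
  unfold val
  set t : Fin k → ℤ := fun j => jacobiSym (D j) p with ht
  have htm : t ∈ Sg k := by
    unfold Sg
    rw [Fintype.mem_piFinset]
    intro j
    rcases jac_pm hp (h j) with h1 | h1
    · simp [ht, h1]
    · simp [ht, h1]
  rw [sum_eq_single_of_mem t htm]
  · split_ifs with hE
    · have : ∀ j, (1 + (t j : ℝ) * (jacobiSym (D j) p : ℝ)) = 2 := by
        intro j
        rcases jac_pm hp (h j) with h1 | h1
        · simp only [ht, h1]; norm_num
        · simp only [ht, h1]; norm_num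
      rw [prod_congr rfl fun j _ => this j]
      simp
    · simp
  · intro s hs hst
    split_ifs
    · have hex : ∃ j, s j ≠ t j := by
        by_contra hc
        push Not at hc
        exact hst (funext hc)
      obtain ⟨j, hj⟩ := hex
      apply prod_eq_zero (mem_univ j)
      have hsj : s j = 1 ∨ s j = -1 := by
        unfold Sg at hs
        have := (Fintype.mem_piFinset.1 hs) j
        simpa using this
      rcases jac_pm hp (h j) with h1 | h1 <;> rcases hsj with h2 | h2
      · exfalso; apply hj; rw [h2, ht]; simp [h1]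
      · rw [h1, h2]; norm_num
      · rw [h1, h2]; norm_num
      · exfalso; apply hj; rw [h2, ht]; simp [h1]
    · rfl

lemma val_abs {k : ℕ} (E : ℕ → (Fin k → ℤ) → Prop) (D : Fin k → ℤ) (p : ℕ) :
    |val E D p| ≤ 2 ^ k := by
  classical
  unfold val
  rw [abs_div, abs_of_pos (by positivity : (0 : ℝ) < 2 ^ k), div_le_iff₀ (by positivity)]
  calc |∑ s ∈ Sg k, if E p s then ∏ j, (1 + (s j : ℝ) * (jacobiSym (D j) p : ℝ)) else 0|
      ≤ ∑ s ∈ Sg k, |if E p s then ∏ j, (1 + (s j : ℝ) * (jacobiSym (D j) p : ℝ)) else 0| :=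
        abs_sum_le_sum_abs _ _
    _ ≤ ∑ s ∈ Sg k, (2 ^ k : ℝ) := by
        refine sum_le_sum fun s hs => ?_
        split_ifs
        · rw [abs_prod]
          calc ∏ j, |1 + (s j : ℝ) * (jacobiSym (D j) p : ℝ)| ≤ ∏ _j : Fin k, (2 : ℝ) := by
                refine prod_le_prod (fun j _ => abs_nonneg _) fun j _ => ?_
                have h1 := abs_sg hs j
                have h2 : |(jacobiSym (D j) p : ℝ)| ≤ 1 := by
                  have := jac_abs (D j) p
                  exact_mod_cast this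
                calc |1 + (s j : ℝ) * (jacobiSym (D j) p : ℝ)|
                    ≤ |1| + |(s j : ℝ) * (jacobiSym (D j) p : ℝ)| := abs_add_le _ _
                  _ ≤ 2 := by rw [abs_mul, h1, abs_one]; linarith
            _ = 2 ^ k := by simp
        · simp
    _ = 2 ^ k * 2 ^ k := by rw [sum_const, card_Sg]; simp

end Pool.Agent.Q233.TL
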