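import Mathlib
import Pool.Agent.Q233.TL.Law

set_option autoImplicit false

/-! # Twist law for vectors of quadratic twists: the theorem -/

namespace Pool.Agent.Q233.TL

open Finset Pool.Agent.W406.TW

/-- the sum attached to the set `S` of coordinates -/
noncomputable def TS {k : ℕ} (E : ℕ → (Fin k → ℤ) → Prop) (D : Fin k → ℤ) (x : ℕ)
    (S : Finset (Fin k)) : ℝ :=
  ∑ p ∈ X E x, co E S p * ∏ j ∈ S, (jacobiSym (D j) p : ℝ)

lemma mean_eq {k : ℕ} (E : ℕ → (Fin k → ℤ) → Prop) (D : Fin k → ℤ) (x : ℕ) :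
    mean E x = TS E D x ∅ := by
  classical
  unfold mean TS co
  rw [sum_div]
  have h1 : ∀ p : ℕ, ((∑ s ∈ Sg k, if E p s then ∏ j ∈ (∅ : Finset (Fin k)), (s j : ℝ) else 0) / 2 ^ k *
      ∏ j ∈ (∅ : Finset (Fin k)), (jacobiSym (D j) p : ℝ)) =
      (((Sg k).filter (fun s => E p s)).card : ℝ) / 2 ^ k := by
    intro p
    rw [prod_empty, mul_one, card_filter]
    push_cast
    simp
  rw [sum_congr rfl fun p _ => h1 p]
  symm
  apply sum_subset
  · intro p hp
    rw [mem_X] at hp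
    rw [mem_filter, mem_Icc]
    exact ⟨hp.1, hp.2.1, hp.2.2.1⟩
  · intro p hp hp'
    rw [mem_filter, mem_Icc] at hp
    have h2 : (Sg k).filter (fun s => E p s) = ∅ := by
      apply filter_eq_empty_iff.2
      intro s hs hE
      apply hp'
      rw [mem_X]
      exact ⟨hp.1, hp.2.1, hp.2.2, s, hs, hE⟩
    rw [h2]; simp

lemma dev {k : ℕ} (E : ℕ → (Fin k → ℤ) → Prop) (D : Fin k → ℤ) (x : ℕ) :
    |(cnt E D x : ℝ) - mean E x| ≤ ∑ S ∈ (univ : Finset (Finset (Fin k))).erase ∅, |TS E D x S| +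
      (2 ^ k + 0) * ∑ j, (((X E x).filter (fun p : ℕ => (p : ℤ) ∣ D j)).card : ℝ) := by
  classical
  have h1 : ∑ p ∈ X E x, val E D p = ∑ S : Finset (Fin k), TS E D x S := by
    unfold TS
    rw [sum_comm]
    exact sum_congr rfl fun p _ => val_eq E D p
  have h2 : ∑ S : Finset (Fin k), TS E D x S = mean E x +
      ∑ S ∈ (univ : Finset (Finset (Fin k))).erase ∅, TS E D x S := by
    rw [mean_eq E D x, ← add_sum_erase _ _ (mem_univ ∅)]
  set Bd := (X E x).filter (fun p : ℕ => ∃ j, (p : ℤ) ∣ D j) with hBd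
  have h3 : ∑ p ∈ X E x, val E D p = (cnt E D x : ℝ) + ∑ p ∈ Bd, val E D p := by
    rw [← sum_filter_add_sum_filter_not (X E x) (fun p : ℕ => ∃ j, (p : ℤ) ∣ D j), add_comm]
    congr 1
    have h4 : ∑ p ∈ (X E x).filter (fun p : ℕ => ¬ ∃ j, (p : ℤ) ∣ D j), val E D p =
        ∑ p ∈ (X E x).filter (fun p : ℕ => ¬ ∃ j, (p : ℤ) ∣ D j),
          if E p (fun j => jacobiSym (D j) p) then (1 : ℝ) else 0 := by
      refine sum_congr rfl fun p hp => ?_
      rw [mem_filter, mem_X] at hp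
      exact val_good E D hp.1.2.1 (fun j hj => hp.2 ⟨j, hj⟩)
    rw [h4, ← sum_filter, filter_filter]
    unfold cnt
    rw [sum_const, nsmul_eq_mul, mul_one]
    congr 2
    ext p
    rw [mem_filter, mem_filter, mem_X, mem_Icc]
    constructor
    · rintro ⟨⟨h5, h6, h7, h8⟩, h9, h10⟩
      exact ⟨h5, h6, h7, fun j hj => h9 ⟨j, hj⟩, h10⟩
    · rintro ⟨h5, h6, h7, h8, h9⟩
      refine ⟨⟨h5, h6, h7, _, ?_, h9⟩, fun ⟨j, hj⟩ => h8 j hj, h9⟩
      unfold Sg
      rw [Fintype.mem_piFinset]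
      intro j
      rcases jac_pm h6 (h8 j) with h | h
      · simp [h]
      · simp [h]
  have h5 : |∑ p ∈ Bd, val E D p| ≤ 2 ^ k * ∑ j, (((X E x).filter (fun p : ℕ => (p : ℤ) ∣ D j)).card : ℝ) := by
    calc |∑ p ∈ Bd, val E D p| ≤ ∑ p ∈ Bd, |val E D p| := abs_sum_le_sum_abs _ _
      _ ≤ ∑ p ∈ Bd, (2 : ℝ) ^ k := sum_le_sum fun p _ => val_abs E D p
      _ = 2 ^ k * (Bd.card : ℝ) := by rw [sum_const, nsmul_eq_mul, mul_comm]
      _ ≤ 2 ^ k * ∑ j, (((X E x).filter (fun p : ℕ => (p : ℤ) ∣ D j)).card : ℝ) := by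
          refine mul_le_mul_of_nonneg_left ?_ (by positivity)
          have h6 : Bd ⊆ univ.biUnion (fun j : Fin k => (X E x).filter (fun p : ℕ => (p : ℤ) ∣ D j)) := by
            intro p hp
            rw [hBd, mem_filter] at hp
            obtain ⟨h7, j, h8⟩ := hp
            rw [mem_biUnion]
            exact ⟨j, mem_univ _, mem_filter.2 ⟨h7, h8⟩⟩
          have h7 := (card_le_card h6).trans card_biUnion_le
          exact_mod_cast h7
  have h6 : (cnt E D x : ℝ) - mean E x = ∑ S ∈ (univ : Finset (Finset (Fin k))).erase ∅, TS E D x S -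
      ∑ p ∈ Bd, val E D p := by
    have := h3.symm.trans (h1.trans h2)
    linarith
  rw [h6, add_zero]
  calc |∑ S ∈ (univ : Finset (Finset (Fin k))).erase ∅, TS E D x S - ∑ p ∈ Bd, val E D p|
      ≤ |∑ S ∈ (univ : Finset (Finset (Fin k))).erase ∅, TS E D x S| + |∑ p ∈ Bd, val E D p| := abs_sub _ _
    _ ≤ _ := add_le_add (abs_sum_le_sum_abs _ _) h5

lemma slice (k : ℕ) (N : ℕ) (Bad : Fin k → (Fin k → ℤ) → Finset ℤ) (R : ℝ) (hR : 0 ≤ R)
    (hBad : ∀ j v, ((Bad j v).card : ℝ) ≤ R) :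
    (((Fintype.piFinset fun _ : Fin k => Icc (-(N : ℤ)) N).filter
      (fun D => ∃ j, D j ∈ Bad j (Function.update D j 0))).card : ℝ) ≤
      k * ((2 * N + 1) ^ (k - 1) * R) := by
  classical
  set Box := Fintype.piFinset fun _ : Fin k => Icc (-(N : ℤ)) N with hBox
  have h1 : Box.filter (fun D => ∃ j, D j ∈ Bad j (Function.update D j 0)) ⊆
      univ.biUnion (fun j : Fin k => Box.filter (fun D => D j ∈ Bad j (Function.update D j 0))) := by
    intro D hD
    obtain ⟨h2, j, h3⟩ := mem_filter.1 hD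
    exact mem_biUnion.2 ⟨j, mem_univ _, mem_filter.2 ⟨h2, h3⟩⟩
  have h2 : ∀ j : Fin k, ((Box.filter (fun D => D j ∈ Bad j (Function.update D j 0))).card : ℝ) ≤
      (2 * N + 1) ^ (k - 1) * R := by
    intro j
    set G := Box.filter (fun D => D j ∈ Bad j (Function.update D j 0)) with hG
    have h3 := card_le_mul_card_image (f := fun D : Fin k → ℤ => Function.update D j 0) G ⌊R⌋₊ ?_
    · have h4 : (G.image (fun D : Fin k → ℤ => Function.update D j 0)).card ≤ (2 * N + 1) ^ (k - 1) := by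
        have h5 : G.image (fun D : Fin k → ℤ => Function.update D j 0) ⊆
            Fintype.piFinset (fun i : Fin k => if i = j then ({0} : Finset ℤ) else Icc (-(N : ℤ)) N) := by
          intro v hv
          obtain ⟨D, hD, rfl⟩ := mem_image.1 hv
          rw [Fintype.mem_piFinset]
          intro i
          have hDB := (mem_filter.1 hD).1
          rw [hBox, Fintype.mem_piFinset] at hDB
          by_cases hij : i = j
          · subst hij; simp
          · rw [if_neg hij, Function.update_of_ne hij]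
            exact hDB i
        refine (card_le_card h5).trans ?_
        rw [Fintype.card_piFinset]
        have h6 : ∀ i : Fin k, (if i = j then ({0} : Finset ℤ) else Icc (-(N : ℤ)) N).card =
            if i = j then 1 else 2 * N + 1 := by
          intro i
          split_ifs
          · simp
          · rw [Int.card_Icc]; omega
        rw [prod_congr rfl fun i _ => h6 i, prod_ite, prod_const_one, one_mul, prod_const]
        apply le_of_eq
        congr 1
        rw [filter_ne']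
        rw [card_erase_of_mem (mem_univ _)]
        simp
      calc ((G.card : ℕ) : ℝ) ≤ ((⌊R⌋₊ * (G.image (fun D : Fin k → ℤ => Function.update D j 0)).card : ℕ) : ℝ) := by
            exact_mod_cast h3
        _ ≤ ((⌊R⌋₊ * (2 * N + 1) ^ (k - 1) : ℕ) : ℝ) := by
            exact_mod_cast Nat.mul_le_mul_left _ h4
        _ = (⌊R⌋₊ : ℝ) * (2 * N + 1) ^ (k - 1) := by push_cast; ring
        _ ≤ R * (2 * N + 1) ^ (k - 1) := by
            exact mul_le_mul_of_nonneg_right (Nat.floor_le hR) (by positivity)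
        _ = _ := by ring
    · intro v hv
      have h7 : ((G.filter (fun D => Function.update D j 0 = v)).card : ℝ) ≤ R := by
        refine le_trans ?_ (hBad j v)
        have h8 : (G.filter (fun D => Function.update D j 0 = v)).card ≤ (Bad j v).card := by
          apply card_le_card_of_injOn (fun D => D j)
          · intro D hD
            have hD' := mem_filter.1 (mem_coe.1 hD)
            have := (mem_filter.1 hD'.1).2
            rw [hD'.2] at this
            exact this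
          · intro D hD D' hD' heq
            have h9 := (mem_filter.1 (mem_coe.1 hD)).2
            have h10 := (mem_filter.1 (mem_coe.1 hD')).2
            funext i
            by_cases hij : i = j
            · subst hij; exact heq
            · have e1 := congrFun (h9.trans h10.symm) i
              rwa [Function.update_of_ne hij, Function.update_of_ne hij] at e1
        exact_mod_cast h8
      exact Nat.le_floor h7
  calc ((Box.filter (fun D => ∃ j, D j ∈ Bad j (Function.update D j 0))).card : ℝ)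
      ≤ ((∑ j : Fin k, (Box.filter (fun D => D j ∈ Bad j (Function.update D j 0))).card : ℕ) : ℝ) := by
        exact_mod_cast (card_le_card h1).trans card_biUnion_le
    _ = ∑ j : Fin k, ((Box.filter (fun D => D j ∈ Bad j (Function.update D j 0))).card : ℝ) := by
        push_cast; rfl
    _ ≤ ∑ _j : Fin k, (2 * N + 1) ^ (k - 1) * R := sum_le_sum fun j _ => h2 j
    _ = _ := by simp

/-- a set `S` of coordinates containing `j`: the sum is a twisted sum in the variable `D j` -/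
lemma TS_eq {k : ℕ} (E : ℕ → (Fin k → ℤ) → Prop) (D : Fin k → ℤ) (x : ℕ)
    (S : Finset (Fin k)) (j : Fin k) (hj : j ∈ S) :
    TS E D x S = SD (X E x) (fun p => co E S p * ∏ i ∈ S.erase j,
      (jacobiSym (Function.update D j 0 i) p : ℝ)) (fun p => p) (D j) := by
  classical
  unfold TS SD
  refine sum_congr rfl fun p _ => ?_
  rw [mul_assoc]
  congr 1
  rw [← mul_prod_erase S _ hj, mul_comm]
  congr 1
  refine prod_congr rfl fun i hi => ?_
  rw [Function.update_of_ne (ne_of_mem_erase hi)]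

theorem law (k : ℕ) (κ ε : ℝ) (hκ : 0 ≤ κ) (hε : 0 < ε) (K₀ : ℕ) :
    ∃ C c : ℝ, 0 < C ∧ 0 < c ∧ ∃ N₀ : ℕ, ∀ N : ℕ, N₀ ≤ N → ∀ (α : Type) (Λ : ℕ → Finset α)
      (E : α → ℕ → (Fin k → ℤ) → Prop),
      (∀ x : ℕ, K₀ ≤ x → ((Λ x).card : ℝ) ≤ (x : ℝ) ^ κ) →
      ({D : Fin k → ℤ | (∀ j, D j ≠ 0 ∧ |D j| ≤ N) ∧ ∃ x : ℕ, (Real.log N) ^ C ≤ x ∧
        (x : ℝ) ≤ (N : ℝ) ^ c ∧ ∃ l ∈ Λ x, √((X (E l) x).card : ℝ) * (x : ℝ) ^ ε <
          |(cnt (E l) D x : ℝ) - mean (E l) x|}.ncard : ℝ) ≤ (N : ℝ) ^ ((k : ℝ) - c) := by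
  classical
  obtain ⟨A₀, c₀, hA₀, hc₀, N₁, hN₁⟩ := uniform 1 (κ + 1) (ε / 2) (by positivity) (by positivity)
  set C : ℝ := max A₀ (2 / ε) with hC
  have hC0 : 0 < C := lt_max_of_lt_left hA₀
  -- how large `x` has to be
  have hK₁ : ∃ K₁ : ℕ, ∀ K : ℕ, K₁ ≤ K → (2 ^ k + 2 ^ k * (2 * k) : ℝ) ≤ (K : ℝ) ^ (ε / 2) := by
    have := ((tendsto_rpow_atTop (by positivity : 0 < ε / 2)).comp
      tendsto_natCast_atTop_atTop).eventually_ge_atTop (2 ^ k + 2 ^ k * (2 * k) : ℝ)
    exact Filter.eventually_atTop.1 this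
  obtain ⟨K₁, hK₁⟩ := hK₁
  set K₂ : ℕ := max (max K₀ K₁) (2 ^ (2 ^ k)) with hK₂
  have hlim := ((tendsto_rpow_atTop hC0).comp (Real.tendsto_log_atTop.comp
    tendsto_natCast_atTop_atTop)).eventually_ge_atTop (K₂ : ℝ)
  have hlimA := ((tendsto_rpow_atTop hA₀).comp (Real.tendsto_log_atTop.comp
    tendsto_natCast_atTop_atTop)).eventually_ge_atTop (K₂ : ℝ)
  have hlim2 := (Real.tendsto_log_atTop.comp tendsto_natCast_atTop_atTop).eventually_ge_atTop (1 : ℝ)
  have hlim3 := ((tendsto_rpow_atTop (by positivity : 0 < c₀ / 2)).comp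
    tendsto_natCast_atTop_atTop).eventually_ge_atTop (k * 3 ^ k : ℝ)
  obtain ⟨N₂, hN₂⟩ := Filter.eventually_atTop.1 (hlim.and (hlimA.and (hlim2.and hlim3)))
  refine ⟨C, c₀ / 2, hC0, by positivity, max N₁ N₂, fun N hN α Λ E hΛ => ?_⟩
  have hNN₁ : N₁ ≤ N := le_trans (le_max_left _ _) hN
  obtain ⟨hL, hLA, hL1, hL3⟩ := hN₂ N (le_trans (le_max_right _ _) hN)
  simp only [Function.comp_apply] at hL hLA hL1 hL3
  have hN1 : (1 : ℝ) ≤ N := by
    by_contra h
    push Not at h
    have h0 : N = 0 := by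
      have : (N : ℝ) < 1 := h
      have : N < 1 := by exact_mod_cast this
      omega
    rw [h0] at hL1
    simp at hL1
    linarith
  have hN0 : (0 : ℝ) < N := by linarith
  -- the bad sets
  set Bad : Fin k → (Fin k → ℤ) → Finset ℤ := fun j v => (Icc (-(N : ℤ)) N).filter
    (fun D => ∃ y : ℕ, (Real.log N) ^ A₀ ≤ y ∧ (y : ℝ) ≤ (N : ℝ) ^ c₀ ∧
      ∃ l ∈ Λ y ×ˢ (univ : Finset (Finset (Fin k))),
        √((X (E l.1) y).card : ℝ) * (y : ℝ) ^ (ε / 2) <
        |SD (X (E l.1) y) (fun p => co (E l.1) l.2 p * ∏ i ∈ l.2.erase j, (jacobiSym (v i) p : ℝ))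
          (fun p => p) D|) with hBaddef
  have hBad : ∀ j v, ((Bad j v).card : ℝ) ≤ (N : ℝ) ^ (1 - c₀) := by
    intro j v
    refine hN₁ N hNN₁ ℕ (α × Finset (Fin k)) (fun y => Λ y ×ˢ (univ : Finset (Finset (Fin k))))
      (fun y l => X (E l.1) y) (fun _ l p => co (E l.1) l.2 p * ∏ i ∈ l.2.erase j, (jacobiSym (v i) p : ℝ))
      (fun _ _ p => p) ?_
    intro y hy1 hy2
    have hyK : K₂ ≤ y := by exact_mod_cast le_trans hLA hy1
    have hyK0 : K₀ ≤ y := le_trans (le_trans (le_max_left _ _) (le_max_left _ _)) hyK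
    have hy2k : (2 ^ 2 ^ k : ℕ) ≤ y := le_trans (le_max_right _ _) hyK
    have hy0 : (0 : ℝ) < y := by
      have : 0 < y := lt_of_lt_of_le (by positivity) hy2k
      exact_mod_cast this
    constructor
    · rw [card_product]
      push_cast
      rw [Real.rpow_add hy0, Real.rpow_one]
      refine mul_le_mul (hΛ y hyK0) ?_ (by positivity) (by positivity)
      rw [card_univ, Fintype.card_finset, Fintype.card_fin]
      have h1 : 2 ^ k ≤ y := le_trans (Nat.lt_two_pow_self).le hy2k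
      exact_mod_cast h1
    · rintro ⟨l, S⟩ hl
      simp only
      refine ⟨?_, ?_, ?_, ?_, ?_⟩
      · have : (X (E l) y).card ≤ (Icc 1 y).card := by
          apply card_le_card
          intro p hp
          exact mem_Icc.2 (mem_X.1 hp).1
        simpa using this
      · intro p hp
        obtain ⟨_, hpp, hp2, _⟩ := mem_X.1 hp
        exact hpp.odd_of_ne_two hp2
      · intro p hp
        rw [pow_one]
        exact (mem_X.1 hp).1.2
      · exact indep_id _ fun p hp => (mem_X.1 hp).2.1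
      · intro p _
        rw [abs_mul, abs_prod]
        calc |co (E l) S p| * ∏ i ∈ S.erase j, |(jacobiSym (v i) p : ℝ)| ≤ 1 * 1 := by
              refine mul_le_mul (co_abs _ _ _) ?_ (prod_nonneg fun _ _ => abs_nonneg _) zero_le_one
              apply prod_le_one (fun _ _ => abs_nonneg _)
              intro i _
              have := jac_abs (v i) p
              exact_mod_cast this
          _ = 1 := one_mul 1
  have hslice := slice k N Bad ((N : ℝ) ^ (1 - c₀)) (by positivity) hBad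
  have hfinal : (k : ℝ) * ((2 * N + 1) ^ (k - 1) * (N : ℝ) ^ (1 - c₀)) ≤ (N : ℝ) ^ ((k : ℝ) - c₀ / 2) := by
    rcases Nat.eq_zero_or_pos k with hk | hk
    · subst hk
      simp only [Nat.cast_zero, zero_mul]
      positivity
    · have h1 : (2 * (N : ℝ) + 1) ^ (k - 1) ≤ (3 * N) ^ (k - 1) := by
        apply pow_le_pow_left₀ (by positivity)
        linarith
      have h2 : (3 * (N : ℝ)) ^ (k - 1) = 3 ^ (k - 1) * (N : ℝ) ^ ((k : ℝ) - 1) := by
        rw [mul_pow]
        congr 1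
        rw [← Real.rpow_natCast]
        congr 1
        rw [Nat.cast_sub hk]
        simp
      have h3 : (3 : ℝ) ^ (k - 1) ≤ 3 ^ k := pow_le_pow_right₀ (by norm_num) (by omega)
      calc (k : ℝ) * ((2 * N + 1) ^ (k - 1) * (N : ℝ) ^ (1 - c₀))
          ≤ k * ((3 ^ k * (N : ℝ) ^ ((k : ℝ) - 1)) * (N : ℝ) ^ (1 - c₀)) := by
            refine mul_le_mul_of_nonneg_left ?_ (Nat.cast_nonneg _)
            refine mul_le_mul_of_nonneg_right ?_ (by positivity)
            rw [h2] at h1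
            refine h1.trans (mul_le_mul_of_nonneg_right h3 (by positivity))
        _ = (k * 3 ^ k) * ((N : ℝ) ^ ((k : ℝ) - 1) * (N : ℝ) ^ (1 - c₀)) := by ring
        _ = (k * 3 ^ k) * (N : ℝ) ^ ((k : ℝ) - c₀) := by
            rw [← Real.rpow_add hN0]; congr 2; ring
        _ ≤ (N : ℝ) ^ (c₀ / 2) * (N : ℝ) ^ ((k : ℝ) - c₀) :=
            mul_le_mul_of_nonneg_right hL3 (by positivity)
        _ = _ := by rw [← Real.rpow_add hN0]; congr 1; ring
  refine le_trans ?_ (hslice.trans hfinal)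
  rw [← Set.ncard_coe_finset]
  refine Nat.cast_le.2 (Set.ncard_le_ncard ?_ (Finset.finite_toSet _))
  intro D hD
  obtain ⟨hD0, x, hx1, hx2, l, hl, hlt⟩ := hD
  rw [mem_coe, mem_filter]
  refine ⟨?_, ?_⟩
  · rw [Fintype.mem_piFinset]
    intro j
    exact mem_Icc.2 (abs_le.1 (hD0 j).2)
  by_contra hcon
  push Not at hcon
  apply absurd hlt
  rw [not_lt]
  have hxA : (Real.log N) ^ A₀ ≤ x :=
    le_trans (Real.rpow_le_rpow_of_exponent_le hL1 (le_max_left _ _)) hx1
  have hxc : (x : ℝ) ≤ (N : ℝ) ^ c₀ :=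
    hx2.trans (Real.rpow_le_rpow_of_exponent_le hN1 (by linarith))
  have hxK : K₂ ≤ x := by exact_mod_cast le_trans hL hx1
  have hxK1 : K₁ ≤ x := le_trans (le_trans (le_max_right _ _) (le_max_left _ _)) hxK
  have hx0 : (0 : ℝ) < x := by
    have : (0 : ℝ) < (Real.log N) ^ C := Real.rpow_pos_of_pos (by linarith) _
    linarith
  have hxε : Real.log N ≤ (x : ℝ) ^ (ε / 2) := by
    have h1 : (Real.log N) ^ (2 / ε) ≤ x :=
      le_trans (Real.rpow_le_rpow_of_exponent_le hL1 (le_max_right _ _)) hx1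
    calc Real.log N = ((Real.log N) ^ (2 / ε)) ^ (ε / 2) := by
          rw [← Real.rpow_mul (by linarith)]
          rw [show 2 / ε * (ε / 2) = 1 by field_simp, Real.rpow_one]
      _ ≤ _ := Real.rpow_le_rpow (by positivity) h1 (by positivity)
  set P := X (E l) x with hP
  set b := (x : ℝ) ^ (ε / 2) with hb
  have hb0 : 0 < b := Real.rpow_pos_of_pos hx0 _
  have hs0 : 0 ≤ √(P.card : ℝ) := Real.sqrt_nonneg _
  have hTS : ∀ S ∈ (univ : Finset (Finset (Fin k))).erase ∅, |TS (E l) D x S| ≤ √(P.card : ℝ) * b := by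
    intro S hS
    have hSn : S.Nonempty := nonempty_iff_ne_empty.2 (ne_of_mem_erase hS)
    obtain ⟨j, hj⟩ := hSn
    by_contra hlt'
    rw [not_le] at hlt'
    apply hcon j
    rw [hBaddef, mem_filter]
    refine ⟨mem_Icc.2 (abs_le.1 (hD0 j).2), x, hxA, hxc, (l, S), ?_, ?_⟩
    · rw [mem_product]; exact ⟨hl, mem_univ _⟩
    · rw [TS_eq (E l) D x S j hj] at hlt'
      exact hlt'
  have hdiv : ∀ j, ((P.filter (fun p : ℕ => (p : ℤ) ∣ D j)).card : ℝ) ≤ √(P.card : ℝ) * (2 * b) := by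
    intro j
    rcases P.eq_empty_or_nonempty with hPe | hPn
    · rw [hPe]; simp
    · have h1 : (1 : ℝ) ≤ √(P.card : ℝ) := by
        rw [Real.one_le_sqrt]
        exact_mod_cast hPn.card_pos
      have h2 := few_div P (fun p hp => (mem_X.1 hp).2.1) (D j) (hD0 j).1
      have h3 : Real.log ((D j).natAbs : ℝ) ≤ b := by
        refine le_trans ?_ hxε
        apply Real.log_le_log
        · have := Int.natAbs_pos.2 (hD0 j).1
          exact_mod_cast this
        · have : ((D j).natAbs : ℤ) ≤ N := by rw [Int.natCast_natAbs]; exact (hD0 j).2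
          exact_mod_cast this
      nlinarith
  have e2 : (x : ℝ) ^ ε = b * b := by
    rw [hb, ← Real.rpow_add hx0]; congr 1; ring
  rw [e2]
  have hbig := hK₁ x hxK1
  refine (dev (E l) D x).trans ?_
  have h4 : ∑ S ∈ (univ : Finset (Finset (Fin k))).erase ∅, |TS (E l) D x S| ≤ 2 ^ k * (√(P.card : ℝ) * b) := by
    calc ∑ S ∈ (univ : Finset (Finset (Fin k))).erase ∅, |TS (E l) D x S|
        ≤ ∑ _S ∈ (univ : Finset (Finset (Fin k))).erase ∅, √(P.card : ℝ) * b := sum_le_sum hTS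
      _ ≤ ∑ _S : Finset (Fin k), √(P.card : ℝ) * b :=
          sum_le_sum_of_subset_of_nonneg (erase_subset _ _) fun _ _ _ => by positivity
      _ = 2 ^ k * (√(P.card : ℝ) * b) := by
          rw [sum_const, card_univ, Fintype.card_finset, Fintype.card_fin, nsmul_eq_mul]; push_cast; ring
  have h5 : ∑ j, ((P.filter (fun p : ℕ => (p : ℤ) ∣ D j)).card : ℝ) ≤ k * (√(P.card : ℝ) * (2 * b)) := by
    calc ∑ j, ((P.filter (fun p : ℕ => (p : ℤ) ∣ D j)).card : ℝ) ≤ ∑ _j : Fin k, √(P.card : ℝ) * (2 * b) :=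
          sum_le_sum fun j _ => hdiv j
      _ = _ := by simp
  have h2k : (0 : ℝ) < 2 ^ k := by positivity
  calc ∑ S ∈ (univ : Finset (Finset (Fin k))).erase ∅, |TS (E l) D x S| +
      (2 ^ k + 0) * ∑ j, ((P.filter (fun p : ℕ => (p : ℤ) ∣ D j)).card : ℝ)
      ≤ 2 ^ k * (√(P.card : ℝ) * b) + 2 ^ k * (k * (√(P.card : ℝ) * (2 * b))) := by
        rw [add_zero]
        exact add_le_add h4 (mul_le_mul_of_nonneg_left h5 h2k.le)
    _ = √(P.card : ℝ) * b * (2 ^ k + 2 ^ k * (2 * k)) := by ring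
    _ ≤ √(P.card : ℝ) * b * b := mul_le_mul_of_nonneg_left hbig (by positivity)
    _ = √(P.card : ℝ) * (b * b) := by ring

end Pool.Agent.Q233.TL
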