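import Mathlib
import Pool.Agent.Q233.TL.Law2

set_option autoImplicit false

/-! # Twist law for systems of elliptic curves -/

namespace Pool.Agent.Q233.TL

open Finset Pool.Agent.W406.TW

lemma disc_iff (A B D : ℤ) {p : ℕ} (hp : p.Prime) :
    (¬ (p : ℤ) ∣ 4 * (A * D ^ 2) ^ 3 + 27 * (B * D ^ 3) ^ 2) ↔
      (¬ (p : ℤ) ∣ D ∧ ¬ (p : ℤ) ∣ 4 * A ^ 3 + 27 * B ^ 2) := by
  have hpp : Prime (p : ℤ) := Nat.prime_iff_prime_int.1 hp
  have h1 : 4 * (A * D ^ 2) ^ 3 + 27 * (B * D ^ 3) ^ 2 = D ^ 6 * (4 * A ^ 3 + 27 * B ^ 2) := by ring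
  rw [h1, hpp.dvd_mul]
  push Not
  constructor
  · rintro ⟨h2, h3⟩
    exact ⟨fun h => h2 (dvd_pow h (by norm_num)), h3⟩
  · rintro ⟨h2, h3⟩
    exact ⟨fun h => h2 (hpp.dvd_of_dvd_pow h), h3⟩

lemma card_Icc_sym (x : ℕ) : (Icc (-(x : ℤ)) x).card = 2 * x + 1 := by
  rw [Int.card_Icc]; omega

lemma two_mul_le (x : ℕ) (hx : 3 ≤ x) : ((2 * x + 1 : ℕ) : ℝ) ≤ (x : ℝ) ^ (2 : ℝ) := by
  rw [Real.rpow_two]
  have : 2 * x + 1 ≤ x ^ 2 := by nlinarith
  exact_mod_cast this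

lemma box_card (k : ℕ) (x : ℕ) (hx : 3 ≤ x) :
    (((Fintype.piFinset fun _ : Fin k => Icc (-(x : ℤ)) x).card : ℕ) : ℝ) ≤
      (x : ℝ) ^ (2 * (k : ℝ)) := by
  rw [Fintype.card_piFinset]
  simp only [card_Icc_sym, prod_const, card_univ, Fintype.card_fin]
  have h1 := two_mul_le x hx
  have hx0 : (0 : ℝ) ≤ x := Nat.cast_nonneg _
  rw [Real.rpow_mul hx0, Real.rpow_natCast]
  push_cast at h1 ⊢
  exact pow_le_pow_left₀ (by positivity) h1 k

lemma range_card (κ : ℝ) (hκ : 0 ≤ κ) (x : ℕ) (hx : 3 ≤ x) :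
    (((range (⌊(x : ℝ) ^ κ⌋₊ + 1)).card : ℕ) : ℝ) ≤ (x : ℝ) ^ (κ + 1) := by
  rw [card_range]
  push_cast
  have h3 : (3 : ℝ) ≤ x := by exact_mod_cast hx
  have hx0 : (0 : ℝ) < x := by linarith
  rw [Real.rpow_add hx0, Real.rpow_one]
  have h1 : (⌊(x : ℝ) ^ κ⌋₊ : ℝ) ≤ (x : ℝ) ^ κ := Nat.floor_le (by positivity)
  have h2 : 1 ≤ (x : ℝ) ^ κ := Real.one_le_rpow (by linarith) hκ
  nlinarith

open Classical in
/-- the number of sign vectors moving `a` to `t` -/
lemma card_signs {k : ℕ} (a t : Fin k → ℤ) (ht : ∀ j, t j ≠ 0) :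
    ((Sg k).filter (fun s => ∀ j, s j * a j = t j)).card = if (∀ j, |a j| = |t j|) then 1 else 0 := by
  by_cases h : ∀ j, |a j| = |t j|
  · rw [if_pos h, card_eq_one]
    refine ⟨fun j => if a j = t j then 1 else -1, ?_⟩
    ext s
    rw [mem_filter, mem_singleton]
    unfold Sg
    rw [Fintype.mem_piFinset]
    constructor
    · rintro ⟨h1, h2⟩
      funext j
      have h3 := h1 j
      have h4 := h2 j
      have h5 := ht j
      rw [mem_insert, mem_singleton] at h3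
      rcases h3 with h3 | h3
      · rw [h3] at h4 ⊢
        rw [if_pos (by linarith)]
      · rw [h3] at h4 ⊢
        rw [if_neg]
        intro h6
        rw [h6] at h4
        omega
    · rintro rfl
      refine ⟨fun j => ?_, fun j => ?_⟩
      · dsimp only
        by_cases h1 : a j = t j
        · rw [if_pos h1]; simp
        · rw [if_neg h1]; simp
      · dsimp only
        by_cases h1 : a j = t j
        · rw [if_pos h1, one_mul, h1]
        · rw [if_neg h1]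
          rcases abs_eq_abs.1 (h j) with h2 | h2
          · exact absurd h2 h1
          · rw [h2]; ring
  · rw [if_neg h, card_eq_zero]
    apply filter_eq_empty_iff.2
    intro s hs h1
    apply h
    intro j
    unfold Sg at hs
    have h2 := (Fintype.mem_piFinset.1 hs) j
    rw [mem_insert, mem_singleton] at h2
    rw [← h1 j]
    rcases h2 with h2 | h2 <;> rw [h2] <;> simp

end Pool.Agent.Q233.TL
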