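import Pool.Agent.Q233.TL.Csec
import Pool.Agent.Q233.TL.Curves

/-!
# Counting lemmas for tuples: index families of polynomial size
-/

set_option autoImplicit false

namespace Pool.Agent.Q233.TL.Tup

open Finset Pool.Agent.W406.TW

/-- arrays of indices -/
lemma card_arrays (ι : Type) [Fintype ι] [DecidableEq ι] (x : ℕ) (hx : 4 ≤ x) :
    (((Fintype.piFinset fun _ : ι => range (2 * (x + 1) + 2)).card : ℕ) : ℝ) ≤
      (x : ℝ) ^ (2 * (Fintype.card ι : ℝ)) := by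
  have hx4 : (4 : ℝ) ≤ x := by exact_mod_cast hx
  have hx0 : (0 : ℝ) < x := by linarith
  rw [Fintype.card_piFinset]
  simp only [card_range, prod_const, card_univ]
  rw [Real.rpow_mul hx0.le, Real.rpow_natCast]
  push_cast
  refine pow_le_pow_left₀ (by positivity) ?_ _
  rw [Real.rpow_two]
  nlinarith

/-- the integers of modulus at most `x ^ κ` -/
noncomputable def ib (κ : ℝ) (x : ℕ) : Finset ℤ := Icc (-(⌊(x : ℝ) ^ κ⌋₊ : ℤ)) ⌊(x : ℝ) ^ κ⌋₊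

lemma mem_ib {κ : ℝ} {x : ℕ} {a : ℤ} : a ∈ ib κ x ↔ |(a : ℝ)| ≤ (x : ℝ) ^ κ := by
  unfold ib
  rw [mem_Icc, ← abs_le]
  constructor
  · intro h
    have h1 : ((|a| : ℤ) : ℝ) ≤ (⌊(x : ℝ) ^ κ⌋₊ : ℝ) := by exact_mod_cast h
    rw [Int.cast_abs] at h1
    exact h1.trans (Nat.floor_le (by positivity))
  · intro h
    have h1 : ((a.natAbs : ℕ) : ℝ) ≤ (x : ℝ) ^ κ := by
      have : ((a.natAbs : ℕ) : ℝ) = |(a : ℝ)| := by
        rw [← Int.cast_abs, Int.abs_eq_natAbs, Int.cast_natCast]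
      rw [this]
      exact h
    have h2 := Nat.le_floor h1
    rw [Int.abs_eq_natAbs]
    exact_mod_cast h2

lemma card_ib (κ : ℝ) (hκ : 0 ≤ κ) (x : ℕ) (hx : 4 ≤ x) : ((ib κ x).card : ℝ) ≤ (x : ℝ) ^ (κ + 1) := by
  have hx4 : (4 : ℝ) ≤ x := by exact_mod_cast hx
  have hx0 : (0 : ℝ) < x := by linarith
  unfold ib
  have h1 : (Icc (-(⌊(x : ℝ) ^ κ⌋₊ : ℤ)) ⌊(x : ℝ) ^ κ⌋₊).card = 2 * ⌊(x : ℝ) ^ κ⌋₊ + 1 := by
    rw [Int.card_Icc]
    omega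
  rw [h1]
  push_cast
  rw [Real.rpow_add hx0, Real.rpow_one]
  have h2 : (⌊(x : ℝ) ^ κ⌋₊ : ℝ) ≤ (x : ℝ) ^ κ := Nat.floor_le (by positivity)
  have h3 : 1 ≤ (x : ℝ) ^ κ := Real.one_le_rpow (by linarith) hκ
  nlinarith

/-- vectors of integers of modulus at most `x ^ κ` -/
lemma card_vec (ι : Type) [Fintype ι] [DecidableEq ι] (κ : ℝ) (hκ : 0 ≤ κ) (x : ℕ) (hx : 4 ≤ x) :
    (((Fintype.piFinset fun _ : ι => ib κ x).card : ℕ) : ℝ) ≤
      (x : ℝ) ^ ((κ + 1) * (Fintype.card ι : ℝ)) := by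
  have hx0 : (0 : ℝ) ≤ x := Nat.cast_nonneg _
  rw [Fintype.card_piFinset]
  simp only [prod_const, card_univ]
  rw [Real.rpow_mul hx0, Real.rpow_natCast]
  push_cast
  exact pow_le_pow_left₀ (by positivity) (card_ib κ hκ x hx) _

/-- the odd primes `p ≤ x` congruent to `a` modulo `q` -/
noncomputable def prog (q a x : ℕ) : Finset ℕ :=
  (Icc 1 x).filter fun p : ℕ => p.Prime ∧ p ≠ 2 ∧ p % q = a

lemma mem_prog {q a x p : ℕ} : p ∈ prog q a x ↔ (1 ≤ p ∧ p ≤ x) ∧ p.Prime ∧ p ≠ 2 ∧ p % q = a := by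
  unfold prog
  rw [mem_filter, mem_Icc]

lemma prog_ok {q a x : ℕ} : ∀ p ∈ prog q a x, p.Prime ∧ p ≠ 2 ∧ p ≤ x := fun _ hp =>
  let h := mem_prog.1 hp
  ⟨h.2.1, h.2.2.1, h.1.2⟩

lemma consec_mem {A : Finset ℕ} {r : ℕ} {τ : Fin r → ℕ} (h : τ ∈ consec A r) (i : Fin r) : τ i ∈ A := by
  obtain ⟨n, hn, rfl⟩ := mem_consec.1 h
  have : n + (i : ℕ) < A.card := by
    have := i.2
    omega
  exact el_mem this

end Pool.Agent.Q233.TL.Tup
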