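import Pool.Agent.Q233.TL.Tup

/-!
# Consecutive elements of sets of primes
-/

set_option autoImplicit false

namespace Pool.Agent.Q233.TL.Tup

open Finset Pool.Agent.W406.TW

/-- the `n`-th element of `A` (`n = 0, 1, …`) in increasing order; `0` if `n ≥ |A|` -/
noncomputable def el (A : Finset ℕ) (n : ℕ) : ℕ := Nat.nth (fun p => p ∈ A) n

lemma el_mem {A : Finset ℕ} {n : ℕ} (hn : n < A.card) : el A n ∈ A := by
  unfold el
  refine Nat.nth_mem n fun hf => ?_
  have : hf.toFinset = A := by
    ext p
    simp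
  rw [this]
  exact hn

lemma el_inj {A : Finset ℕ} {m n : ℕ} (hm : m < A.card) (hn : n < A.card) (h : el A m = el A n) :
    m = n := by
  have hf : (Set.ofPred fun p => p ∈ A).Finite := A.finite_toSet
  have : hf.toFinset = A := by
    ext p
    rw [Set.Finite.mem_toFinset]
    rfl
  have h1 := Nat.nth_injOn hf
  rw [this] at h1
  exact h1 hm hn h

/-- the `r`-tuples of consecutive elements of `A` -/
noncomputable def consec (A : Finset ℕ) (r : ℕ) : Finset (Fin r → ℕ) := by
  classical
  exact (range (A.card + 1 - r)).image fun n => fun i : Fin r => el A (n + i)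

open Classical in
lemma mem_consec {A : Finset ℕ} {r : ℕ} {τ : Fin r → ℕ} :
    τ ∈ consec A r ↔ ∃ n, n < A.card + 1 - r ∧ (fun i : Fin r => el A (n + i)) = τ := by
  unfold consec
  rw [mem_image]
  simp only [mem_range]

lemma consec_card {A : Finset ℕ} {r : ℕ} (hr : 0 < r) : (consec A r).card = A.card + 1 - r := by
  classical
  unfold consec
  rw [card_image_of_injOn, card_range]
  intro a ha b hb h
  have ha' : a < A.card + 1 - r := by simpa using ha
  have hb' : b < A.card + 1 - r := by simpa using hb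
  have h1 := congrFun h ⟨0, hr⟩
  simp only [Nat.add_zero] at h1
  exact el_inj (by omega) (by omega) h1

/-- indices -/
lemma indep_idx {A : Finset ℕ} (hA : ∀ p ∈ A, p.Prime) {r : ℕ} (I : Finset (Fin r)) (hI : I.Nonempty) :
    Indep (range (A.card + 1 - r)) (fun n => ∏ i ∈ I, el A (n + i)) := by
  classical
  intro m f hf hsq
  by_contra hc
  unfold EvenF at hc
  push Not at hc
  have hlt : ∀ j (i : Fin r), f j + i < A.card := fun j i => by
    have := mem_range.1 (hf j)
    have := i.2
    omega
  have hpr : ∀ j (i : Fin r), (el A (f j + i)).Prime := fun j i => hA _ (el_mem (hlt j i))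
  have hex : ∃ k, ¬ Even (Pool.Agent.W406.TW.cnt f k) := by
    obtain ⟨k, hk⟩ := hc; exact ⟨k, by simpa using hk⟩
  set k₀ := Nat.find hex with hk₀
  have h1 : ¬ Even (Pool.Agent.W406.TW.cnt f k₀) := Nat.find_spec hex
  have h2 : ∀ k, k < k₀ → Even (Pool.Agent.W406.TW.cnt f k) := fun k hk => by
    by_contra h; exact Nat.find_min hex hk h
  have hk₀lt : k₀ < A.card + 1 - r := by
    by_contra h
    apply h1
    have : Pool.Agent.W406.TW.cnt f k₀ = 0 := by
      unfold Pool.Agent.W406.TW.cnt
      refine sum_eq_zero fun j _ => ?_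
      rw [if_neg]
      intro h3
      have := mem_range.1 (hf j)
      omega
    rw [this]
    exact Even.zero
  set i₀ := I.min' hI with hi₀
  have hk₀i : k₀ + i₀ < A.card := by
    have := i₀.2
    omega
  have hq : (el A (k₀ + i₀)).Prime := hA _ (el_mem hk₀i)
  have hne : ∀ j, (∏ i ∈ I, el A (f j + i)) ≠ 0 := fun j =>
    prod_ne_zero_iff.2 fun i _ => (hpr j i).ne_zero
  have hfac1 : ∀ j, (∏ i ∈ I, el A (f j + i)).factorization (el A (k₀ + i₀)) =
      ∑ i ∈ I, if f j + (i : ℕ) = k₀ + i₀ then 1 else 0 := by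
    intro j
    rw [Nat.factorization_prod fun i _ => (hpr j i).ne_zero]
    rw [Finsupp.finsetSum_apply]
    refine sum_congr rfl fun i _ => ?_
    rw [(hpr j i).factorization]
    split_ifs with h
    · rw [h]; simp
    · rw [Finsupp.single_apply, if_neg (fun h' => h (el_inj (hlt j i) hk₀i h'))]
  have hfac : (∏ j, ∏ i ∈ I, el A (f j + i)).factorization (el A (k₀ + i₀)) =
      ∑ i ∈ I, ∑ j, if f j + (i : ℕ) = k₀ + i₀ then 1 else 0 := by
    rw [Nat.factorization_prod fun j _ => hne j, Finsupp.finsetSum_apply]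
    rw [sum_comm]
    exact sum_congr rfl fun j _ => hfac1 j
  have hev := even_fact (prod_ne_zero_iff.2 fun j _ => hne j) hsq (el A (k₀ + i₀))
  rw [hfac, ← add_sum_erase I _ (I.min'_mem hI)] at hev
  have h3 : (∑ j, if f j + ((I.min' hI : Fin r) : ℕ) = k₀ + i₀ then 1 else 0) =
      Pool.Agent.W406.TW.cnt f k₀ := by
    unfold Pool.Agent.W406.TW.cnt
    refine sum_congr rfl fun j _ => ?_
    rw [← hi₀]
    congr 1
    simp only [eq_iff_iff]
    omega
  have h4 : Even (∑ i ∈ I.erase (I.min' hI), ∑ j, if f j + (i : ℕ) = k₀ + i₀ then 1 else 0) := by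
    apply Finset.even_sum
    intro i hi
    obtain ⟨hi1, hi2⟩ := mem_erase.1 hi
    have hlt : i₀ < i := lt_of_le_of_ne (I.min'_le i hi2) (Ne.symm hi1)
    have hlt' : (i₀ : ℕ) < i := hlt
    by_cases hle : (i : ℕ) ≤ k₀ + i₀
    · have h5 : (∑ j, if f j + (i : ℕ) = k₀ + i₀ then 1 else 0) =
          Pool.Agent.W406.TW.cnt f (k₀ + i₀ - i) := by
        unfold Pool.Agent.W406.TW.cnt
        refine sum_congr rfl fun j _ => ?_
        congr 1
        simp only [eq_iff_iff]
        omega
      rw [h5]
      exact h2 _ (by omega)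
    · have h5 : (∑ j, if f j + (i : ℕ) = k₀ + i₀ then 1 else 0) = 0 := by
        apply sum_eq_zero
        intro j _
        rw [if_neg]
        omega
      rw [h5]
      exact Even.zero
  rw [h3] at hev
  exact h1 ((Nat.even_add.1 hev).2 h4)

/-- independence passes to injective images -/
lemma indep_image {ι κ : Type*} [DecidableEq ι] [DecidableEq κ] {P : Finset ι} (g : ι → κ)
    (hg : Set.InjOn g P) (n : κ → ℕ) (h : Indep P (fun i => n (g i))) : Indep (P.image g) n := by
  intro m f hf hsq
  have hch : ∀ j, ∃ i ∈ P, g i = f j := fun j => mem_image.1 (hf j)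
  choose f' hf'P hf' using hch
  have h1 := h m f' hf'P (by simpa [hf'] using hsq)
  intro t
  by_cases ht : ∃ i ∈ P, g i = t
  · obtain ⟨i, hi, rfl⟩ := ht
    have h2 : Pool.Agent.W406.TW.cnt f (g i) = Pool.Agent.W406.TW.cnt f' i := by
      unfold Pool.Agent.W406.TW.cnt
      refine sum_congr rfl fun j _ => ?_
      congr 1
      simp only [eq_iff_iff]
      rw [← hf' j]
      exact ⟨fun h => hg (hf'P j) hi h, fun h => by rw [h]⟩
    rw [h2]
    exact h1 i
  · have h2 : Pool.Agent.W406.TW.cnt f t = 0 := by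
      unfold Pool.Agent.W406.TW.cnt
      refine sum_eq_zero fun j _ => ?_
      rw [if_neg]
      intro h3
      exact ht ⟨f' j, hf'P j, (hf' j).trans h3⟩
    rw [h2]
    exact Even.zero

/-- consecutive elements of a set of odd primes up to `x` form a good family -/
theorem good_consec {A : Finset ℕ} {x r : ℕ} (hr : 0 < r) (hA : ∀ p ∈ A, p.Prime ∧ p ≠ 2 ∧ p ≤ x) :
    Good (consec A r) x := by
  classical
  refine ⟨?_, ?_, ?_⟩
  · rw [consec_card hr]
    have h1 : A.card ≤ x := by
      have : A ⊆ Icc 1 x := fun p hp => mem_Icc.2 ⟨(hA p hp).1.one_lt.le, (hA p hp).2.2⟩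
      simpa using card_le_card this
    omega
  · intro τ hτ i
    obtain ⟨n, hn, rfl⟩ := mem_consec.1 hτ
    have : n + (i : ℕ) < A.card := by
      have := i.2
      omega
    exact hA _ (el_mem this)
  · intro I hI
    unfold consec
    refine indep_image _ ?_ _ ?_
    · intro a ha b hb h
      have ha' : a < A.card + 1 - r := by simpa using ha
      have hb' : b < A.card + 1 - r := by simpa using hb
      have h1 := congrFun h ⟨0, hr⟩
      simp only [Nat.add_zero] at h1
      exact el_inj (by omega) (by omega) h1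
    · exact indep_idx (fun p hp => (hA p hp).1) I hI

end Pool.Agent.Q233.TL.Tup
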