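import Pool.Agent.Q233.TL.Law2
import Pool.Agent.W406.TW.Cons

/-!
# Twist law for tuples of primes and vectors of twists
-/

set_option autoImplicit false

namespace Pool.Agent.Q233.TL.Tup

open Finset Pool.Agent.W406.TW

variable {r k : ℕ}

/-- the arrays of signs -/
def Sgt (r k : ℕ) : Finset (Fin r × Fin k → ℤ) := Fintype.piFinset fun _ => ({1, -1} : Finset ℤ)

lemma mem_Sgt {s : Fin r × Fin k → ℤ} : s ∈ Sgt r k ↔ ∀ z, s z = 1 ∨ s z = -1 := by
  unfold Sgt
  rw [Fintype.mem_piFinset]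
  simp

lemma card_Sgt : (Sgt r k).card = 2 ^ (r * k) := by
  unfold Sgt
  rw [Fintype.card_piFinset]
  simp

/-- the array of the Legendre symbols `(D j / τ i)` -/
def sym (D : Fin k → ℤ) (τ : Fin r → ℕ) : Fin r × Fin k → ℤ := fun z => jacobiSym (D z.2) (τ z.1)

/-- the tuples of `T` at which some array of signs satisfies `E` -/
noncomputable def X (E : (Fin r → ℕ) → (Fin r × Fin k → ℤ) → Prop) (T : Finset (Fin r → ℕ)) :
    Finset (Fin r → ℕ) := by
  classical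
  exact T.filter fun τ => ∃ s ∈ Sgt r k, E τ s

/-- the number of tuples of `T` whose entries divide no `D j` with `E τ ((D j / τ i))` -/
noncomputable def cnt (E : (Fin r → ℕ) → (Fin r × Fin k → ℤ) → Prop) (T : Finset (Fin r → ℕ))
    (D : Fin k → ℤ) : ℕ := by
  classical
  exact (T.filter fun τ => (∀ i j, ¬ (τ i : ℤ) ∣ D j) ∧ E τ (sym D τ)).card

/-- the mean over the arrays of signs -/
noncomputable def mean (E : (Fin r → ℕ) → (Fin r × Fin k → ℤ) → Prop) (T : Finset (Fin r → ℕ)) : ℝ := by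
  classical
  exact (∑ τ ∈ T, (((Sgt r k).filter (fun s => E τ s)).card : ℝ)) / 2 ^ (r * k)

open Classical in
lemma mem_X {E : (Fin r → ℕ) → (Fin r × Fin k → ℤ) → Prop} {T : Finset (Fin r → ℕ)} {τ : Fin r → ℕ} :
    τ ∈ X E T ↔ τ ∈ T ∧ ∃ s ∈ Sgt r k, E τ s := by
  unfold X
  rw [mem_filter]

open Classical in
/-- Fourier coefficients -/
noncomputable def co (E : (Fin r → ℕ) → (Fin r × Fin k → ℤ) → Prop) (S : Finset (Fin r × Fin k))
    (τ : Fin r → ℕ) : ℝ :=
  (∑ s ∈ Sgt r k, if E τ s then ∏ z ∈ S, (s z : ℝ) else 0) / 2 ^ (r * k)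

lemma abs_sg {s : Fin r × Fin k → ℤ} (hs : s ∈ Sgt r k) (z : Fin r × Fin k) : |(s z : ℝ)| = 1 := by
  rcases mem_Sgt.1 hs z with h | h <;> rw [h] <;> simp

lemma co_abs (E : (Fin r → ℕ) → (Fin r × Fin k → ℤ) → Prop) (S : Finset (Fin r × Fin k))
    (τ : Fin r → ℕ) : |co E S τ| ≤ 1 := by
  classical
  unfold co
  rw [abs_div, abs_of_pos (by positivity : (0 : ℝ) < 2 ^ (r * k)), div_le_one (by positivity)]
  calc |∑ s ∈ Sgt r k, if E τ s then ∏ z ∈ S, (s z : ℝ) else 0|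
      ≤ ∑ s ∈ Sgt r k, |if E τ s then ∏ z ∈ S, (s z : ℝ) else 0| := abs_sum_le_sum_abs _ _
    _ ≤ ∑ s ∈ Sgt r k, (1 : ℝ) := by
        refine sum_le_sum fun s hs => ?_
        split_ifs
        · rw [abs_prod, prod_congr rfl fun j _ => abs_sg hs j]
          simp
        · simp
    _ = 2 ^ (r * k) := by rw [sum_const, card_Sgt]; simp

open Classical in
/-- the smoothed indicator -/
noncomputable def val (E : (Fin r → ℕ) → (Fin r × Fin k → ℤ) → Prop) (D : Fin k → ℤ)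
    (τ : Fin r → ℕ) : ℝ :=
  (∑ s ∈ Sgt r k, if E τ s then ∏ z, (1 + (s z : ℝ) * (sym D τ z : ℝ)) else 0) / 2 ^ (r * k)

lemma val_eq (E : (Fin r → ℕ) → (Fin r × Fin k → ℤ) → Prop) (D : Fin k → ℤ) (τ : Fin r → ℕ) :
    val E D τ = ∑ S : Finset (Fin r × Fin k), co E S τ * ∏ z ∈ S, (sym D τ z : ℝ) := by
  classical
  unfold val co
  simp_rw [div_mul_eq_mul_div, ← sum_div]
  congr 1
  simp_rw [sum_mul]
  rw [sum_comm]
  refine sum_congr rfl fun s _ => ?_
  split_ifs with h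
  · rw [prod_one_add]
    rw [powerset_univ]
    refine sum_congr rfl fun S _ => ?_
    rw [prod_mul_distrib]
  · simp

lemma sym_pm {D : Fin k → ℤ} {τ : Fin r → ℕ} (hp : ∀ i, (τ i).Prime)
    (h : ∀ i j, ¬ (τ i : ℤ) ∣ D j) (z : Fin r × Fin k) : sym D τ z = 1 ∨ sym D τ z = -1 :=
  jac_pm (hp z.1) (h z.1 z.2)

lemma sym_abs (D : Fin k → ℤ) (τ : Fin r → ℕ) (z : Fin r × Fin k) : |(sym D τ z : ℝ)| ≤ 1 := by
  have := jac_abs (D z.2) (τ z.1)
  unfold sym
  exact_mod_cast this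

lemma val_good (E : (Fin r → ℕ) → (Fin r × Fin k → ℤ) → Prop) (D : Fin k → ℤ) {τ : Fin r → ℕ}
    (hp : ∀ i, (τ i).Prime) (h : ∀ i j, ¬ (τ i : ℤ) ∣ D j) [Decidable (E τ (sym D τ))] :
    val E D τ = if E τ (sym D τ) then 1 else 0 := by
  classical
  unfold val
  set t : Fin r × Fin k → ℤ := sym D τ with ht
  have htm : t ∈ Sgt r k := mem_Sgt.2 fun z => sym_pm hp h z
  rw [sum_eq_single_of_mem t htm]
  · split_ifs with hE
    · have : ∀ z, (1 + (t z : ℝ) * (t z : ℝ)) = 2 := by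
        intro z
        rcases mem_Sgt.1 htm z with h1 | h1 <;> rw [h1] <;> norm_num
      rw [prod_congr rfl fun j _ => this j]
      simp
    · simp
  · intro s hs hst
    split_ifs
    · have hex : ∃ z, s z ≠ t z := by
        by_contra hc
        push Not at hc
        exact hst (funext hc)
      obtain ⟨z, hz⟩ := hex
      apply prod_eq_zero (mem_univ z)
      change 1 + (s z : ℝ) * (t z : ℝ) = 0
      rcases mem_Sgt.1 htm z with h1 | h1 <;> rcases mem_Sgt.1 hs z with h2 | h2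
      · exfalso; apply hz; rw [h2, h1]
      · rw [h1, h2]; norm_num
      · rw [h1, h2]; norm_num
      · exfalso; apply hz; rw [h2, h1]
    · rfl

lemma val_abs (E : (Fin r → ℕ) → (Fin r × Fin k → ℤ) → Prop) (D : Fin k → ℤ) (τ : Fin r → ℕ) :
    |val E D τ| ≤ 2 ^ (r * k) := by
  classical
  unfold val
  rw [abs_div, abs_of_pos (by positivity : (0 : ℝ) < 2 ^ (r * k)), div_le_iff₀ (by positivity)]
  calc |∑ s ∈ Sgt r k, if E τ s then ∏ z, (1 + (s z : ℝ) * (sym D τ z : ℝ)) else 0|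
      ≤ ∑ s ∈ Sgt r k, |if E τ s then ∏ z, (1 + (s z : ℝ) * (sym D τ z : ℝ)) else 0| :=
        abs_sum_le_sum_abs _ _
    _ ≤ ∑ s ∈ Sgt r k, (2 ^ (r * k) : ℝ) := by
        refine sum_le_sum fun s hs => ?_
        split_ifs
        · rw [abs_prod]
          calc ∏ z, |1 + (s z : ℝ) * (sym D τ z : ℝ)| ≤ ∏ _z : Fin r × Fin k, (2 : ℝ) := by
                refine prod_le_prod (fun j _ => abs_nonneg _) fun z _ => ?_
                have h1 := abs_sg hs z
                have h2 := sym_abs D τ z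
                calc |1 + (s z : ℝ) * (sym D τ z : ℝ)|
                    ≤ |1| + |(s z : ℝ) * (sym D τ z : ℝ)| := abs_add_le _ _
                  _ ≤ 2 := by rw [abs_mul, h1, abs_one]; linarith
            _ = 2 ^ (r * k) := by simp
        · simp
    _ = 2 ^ (r * k) * 2 ^ (r * k) := by rw [sum_const, card_Sgt]; simp

/-- the sum attached to `S` -/
noncomputable def TS (E : (Fin r → ℕ) → (Fin r × Fin k → ℤ) → Prop) (T : Finset (Fin r → ℕ))
    (D : Fin k → ℤ) (S : Finset (Fin r × Fin k)) : ℝ :=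
  ∑ τ ∈ X E T, co E S τ * ∏ z ∈ S, (sym D τ z : ℝ)

lemma mean_eq (E : (Fin r → ℕ) → (Fin r × Fin k → ℤ) → Prop) (T : Finset (Fin r → ℕ))
    (D : Fin k → ℤ) : mean E T = TS E T D ∅ := by
  classical
  unfold mean TS co
  rw [sum_div]
  have h1 : ∀ τ : Fin r → ℕ, ((∑ s ∈ Sgt r k, if E τ s then
      ∏ z ∈ (∅ : Finset (Fin r × Fin k)), (s z : ℝ) else 0) / 2 ^ (r * k) *
      ∏ z ∈ (∅ : Finset (Fin r × Fin k)), (sym D τ z : ℝ)) =
      (((Sgt r k).filter (fun s => E τ s)).card : ℝ) / 2 ^ (r * k) := by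
    intro p
    rw [prod_empty, mul_one, card_filter]
    push_cast
    simp
  rw [sum_congr rfl fun p _ => h1 p]
  symm
  apply sum_subset
  · intro p hp
    exact (mem_X.1 hp).1
  · intro p hp hp'
    have h2 : (Sgt r k).filter (fun s => E p s) = ∅ := by
      apply filter_eq_empty_iff.2
      intro s hs hE
      exact hp' (mem_X.2 ⟨hp, s, hs, hE⟩)
    rw [h2]; simp

lemma dev (E : (Fin r → ℕ) → (Fin r × Fin k → ℤ) → Prop) (T : Finset (Fin r → ℕ))
    (hT : ∀ τ ∈ T, ∀ i, (τ i).Prime) (D : Fin k → ℤ) :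
    |(cnt E T D : ℝ) - mean E T| ≤ ∑ S ∈ (univ : Finset (Finset (Fin r × Fin k))).erase ∅, |TS E T D S| +
      2 ^ (r * k) * ∑ z : Fin r × Fin k,
        (((X E T).filter (fun τ : Fin r → ℕ => (τ z.1 : ℤ) ∣ D z.2)).card : ℝ) := by
  classical
  have h1 : ∑ τ ∈ X E T, val E D τ = ∑ S : Finset (Fin r × Fin k), TS E T D S := by
    unfold TS
    rw [sum_comm]
    exact sum_congr rfl fun p _ => val_eq E D p
  have h2 : ∑ S : Finset (Fin r × Fin k), TS E T D S = mean E T +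
      ∑ S ∈ (univ : Finset (Finset (Fin r × Fin k))).erase ∅, TS E T D S := by
    rw [mean_eq E T D, ← add_sum_erase _ _ (mem_univ ∅)]
  set Bd := (X E T).filter (fun τ : Fin r → ℕ => ∃ z : Fin r × Fin k, (τ z.1 : ℤ) ∣ D z.2) with hBd
  have h3 : ∑ τ ∈ X E T, val E D τ = (cnt E T D : ℝ) + ∑ τ ∈ Bd, val E D τ := by
    rw [← sum_filter_add_sum_filter_not (X E T)
      (fun τ : Fin r → ℕ => ∃ z : Fin r × Fin k, (τ z.1 : ℤ) ∣ D z.2), add_comm]
    congr 1
    have h4 : ∑ τ ∈ (X E T).filter (fun τ : Fin r → ℕ => ¬ ∃ z : Fin r × Fin k, (τ z.1 : ℤ) ∣ D z.2),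
        val E D τ =
        ∑ τ ∈ (X E T).filter (fun τ : Fin r → ℕ => ¬ ∃ z : Fin r × Fin k, (τ z.1 : ℤ) ∣ D z.2),
          if E τ (sym D τ) then (1 : ℝ) else 0 := by
      refine sum_congr rfl fun p hp => ?_
      rw [mem_filter, mem_X] at hp
      exact val_good E D (hT p hp.1.1) (fun i j hj => hp.2 ⟨(i, j), hj⟩)
    rw [h4, ← sum_filter, filter_filter]
    unfold cnt
    rw [sum_const, nsmul_eq_mul, mul_one]
    congr 2
    ext p
    rw [mem_filter, mem_filter, mem_X]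
    constructor
    · rintro ⟨⟨h5, h6⟩, h9, h10⟩
      exact ⟨h5, fun i j hj => h9 ⟨(i, j), hj⟩, h10⟩
    · rintro ⟨h5, h8, h9⟩
      exact ⟨⟨h5, _, mem_Sgt.2 fun z => sym_pm (hT p h5) h8 z, h9⟩, fun ⟨z, hz⟩ => h8 z.1 z.2 hz, h9⟩
  have h5 : |∑ τ ∈ Bd, val E D τ| ≤ 2 ^ (r * k) * ∑ z : Fin r × Fin k,
      (((X E T).filter (fun τ : Fin r → ℕ => (τ z.1 : ℤ) ∣ D z.2)).card : ℝ) := by
    calc |∑ τ ∈ Bd, val E D τ| ≤ ∑ τ ∈ Bd, |val E D τ| := abs_sum_le_sum_abs _ _
      _ ≤ ∑ τ ∈ Bd, (2 : ℝ) ^ (r * k) := sum_le_sum fun p _ => val_abs E D p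
      _ = 2 ^ (r * k) * (Bd.card : ℝ) := by rw [sum_const, nsmul_eq_mul, mul_comm]
      _ ≤ _ := by
          refine mul_le_mul_of_nonneg_left ?_ (by positivity)
          have h6 : Bd ⊆ univ.biUnion (fun z : Fin r × Fin k =>
              (X E T).filter (fun τ : Fin r → ℕ => (τ z.1 : ℤ) ∣ D z.2)) := by
            intro p hp
            rw [hBd, mem_filter] at hp
            obtain ⟨h7, j, h8⟩ := hp
            rw [mem_biUnion]
            exact ⟨j, mem_univ _, mem_filter.2 ⟨h7, h8⟩⟩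
          have h7 := (card_le_card h6).trans card_biUnion_le
          exact_mod_cast h7
  have h6 : (cnt E T D : ℝ) - mean E T =
      ∑ S ∈ (univ : Finset (Finset (Fin r × Fin k))).erase ∅, TS E T D S - ∑ τ ∈ Bd, val E D τ := by
    have := h3.symm.trans (h1.trans h2)
    linarith
  rw [h6]
  calc |∑ S ∈ (univ : Finset (Finset (Fin r × Fin k))).erase ∅, TS E T D S - ∑ τ ∈ Bd, val E D τ|
      ≤ |∑ S ∈ (univ : Finset (Finset (Fin r × Fin k))).erase ∅, TS E T D S| + |∑ τ ∈ Bd, val E D τ| :=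
        abs_sub _ _
    _ ≤ _ := add_le_add (abs_sum_le_sum_abs _ _) h5

/-- the coordinates `i` with `(i, j) ∈ S` -/
def fib (S : Finset (Fin r × Fin k)) (j : Fin k) : Finset (Fin r) :=
  univ.filter fun i => (i, j) ∈ S

/-- the product of the entries in `I` -/
def pr (I : Finset (Fin r)) (τ : Fin r → ℕ) : ℕ := ∏ i ∈ I, τ i

/-- the sum attached to `S` is a twisted sum in the variable `D j` -/
lemma TS_eq (E : (Fin r → ℕ) → (Fin r × Fin k → ℤ) → Prop) (T : Finset (Fin r → ℕ))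
    (hT : ∀ τ ∈ T, ∀ i, (τ i).Prime) (D : Fin k → ℤ)
    (S : Finset (Fin r × Fin k)) (j : Fin k) :
    TS E T D S = SD (X E T) (fun τ => co E S τ * ∏ z ∈ S.filter (fun z => z.2 ≠ j),
      (sym (Function.update D j 0) τ z : ℝ)) (pr (fib S j)) (D j) := by
  classical
  unfold TS SD
  refine sum_congr rfl fun τ hτ => ?_
  have hp := hT τ (mem_X.1 hτ).1
  rw [mul_assoc]
  congr 1
  rw [← prod_filter_mul_prod_filter_not S (fun z => z.2 ≠ j)]
  congr 1
  · refine prod_congr rfl fun z hz => ?_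
    have := (mem_filter.1 hz).2
    unfold sym
    rw [Function.update_of_ne this]
  · unfold pr
    rw [jac_prod (D j) (fib S j) (fun i => τ i) (fun i _ => (hp i).ne_zero)]
    push_cast
    symm
    refine prod_bij (fun i _ => (i, j)) ?_ ?_ ?_ ?_
    · intro i hi
      rw [mem_filter]
      exact ⟨(mem_filter.1 hi).2, by simp⟩
    · intro a _ b _ h
      exact congrArg Prod.fst h
    · rintro ⟨i, j'⟩ hz
      rw [mem_filter] at hz
      have hj : j' = j := by simpa using hz.2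
      subst hj
      exact ⟨i, mem_filter.2 ⟨mem_univ _, hz.1⟩, rfl⟩
    · intro i _
      rfl

/-- a good family of tuples of odd primes up to `x` -/
def Good (T : Finset (Fin r → ℕ)) (x : ℕ) : Prop :=
  T.card ≤ x ∧ (∀ τ ∈ T, ∀ i, (τ i).Prime ∧ τ i ≠ 2 ∧ τ i ≤ x) ∧
    ∀ I : Finset (Fin r), I.Nonempty → Indep T (pr I)

lemma indep_sub {ι : Type*} [DecidableEq ι] {P Q : Finset ι} {n : ι → ℕ} (h : Indep P n) (hQ : Q ⊆ P) :
    Indep Q n := fun m f hf hsq => h m f (fun j => hQ (hf j)) hsq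

/-- the map to one coordinate is injective -/
lemma good_inj {T : Finset (Fin r → ℕ)} {x : ℕ} (h : Good T x) (i : Fin r) :
    Set.InjOn (fun τ : Fin r → ℕ => τ i) T := by
  classical
  intro a ha b hb hab
  by_contra hne
  have h1 := h.2.2 {i} (singleton_nonempty i) 2 ![a, b] (by
    intro j
    fin_cases j
    · exact ha
    · exact hb) (by
    rw [Fin.prod_univ_two]
    simp only [Matrix.cons_val_zero, Matrix.cons_val_one, pr, prod_singleton]
    exact ⟨b i, by rw [show a i = b i from hab]⟩) a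
  have h2 : Pool.Agent.W406.TW.cnt ![a, b] a = 1 := by
    unfold Pool.Agent.W406.TW.cnt
    rw [Fin.sum_univ_two]
    simp [Ne.symm hne]
  rw [h2] at h1
  exact absurd h1 (by decide)

lemma few_div_tup {T : Finset (Fin r → ℕ)} {x : ℕ} (h : Good T x) (Q : Finset (Fin r → ℕ)) (hQ : Q ⊆ T)
    (i : Fin r) (D : ℤ) (hD : D ≠ 0) :
    ((Q.filter (fun τ : Fin r → ℕ => (τ i : ℤ) ∣ D)).card : ℝ) ≤ 2 * Real.log (D.natAbs : ℝ) := by
  classical
  have h1 := few_div (Q.image fun τ => τ i) (by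
    intro p hp
    obtain ⟨τ, hτ, rfl⟩ := mem_image.1 hp
    exact (h.2.1 τ (hQ hτ) i).1) D hD
  refine le_trans ?_ h1
  have h2 : (Q.filter (fun τ : Fin r → ℕ => (τ i : ℤ) ∣ D)).card ≤
      ((Q.image fun τ => τ i).filter (fun p : ℕ => (p : ℤ) ∣ D)).card := by
    apply card_le_card_of_injOn (fun τ => τ i)
    · intro τ hτ
      have := mem_filter.1 (mem_coe.1 hτ)
      exact mem_coe.2 (mem_filter.2 ⟨mem_image.2 ⟨τ, this.1, rfl⟩, this.2⟩)
    · intro a ha b hb hab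
      exact good_inj h i (hQ (mem_filter.1 (mem_coe.1 ha)).1) (hQ (mem_filter.1 (mem_coe.1 hb)).1) hab
  exact_mod_cast h2

theorem law (r k : ℕ) (κ ε : ℝ) (hκ : 0 ≤ κ) (hε : 0 < ε) (K₀ : ℕ) :
    ∃ C c : ℝ, 0 < C ∧ 0 < c ∧ ∃ N₀ : ℕ, ∀ N : ℕ, N₀ ≤ N → ∀ (α : Type) (Λ : ℕ → Finset α)
      (T : α → ℕ → Finset (Fin r → ℕ)) (E : α → (Fin r → ℕ) → (Fin r × Fin k → ℤ) → Prop),
      (∀ x : ℕ, K₀ ≤ x → ((Λ x).card : ℝ) ≤ (x : ℝ) ^ κ ∧ ∀ l ∈ Λ x, Good (T l x) x) →
      ({D : Fin k → ℤ | (∀ j, D j ≠ 0 ∧ |D j| ≤ N) ∧ ∃ x : ℕ, (Real.log N) ^ C ≤ x ∧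
        (x : ℝ) ≤ (N : ℝ) ^ c ∧ ∃ l ∈ Λ x, √((X (E l) (T l x)).card : ℝ) * (x : ℝ) ^ ε <
          |(cnt (E l) (T l x) D : ℝ) - mean (E l) (T l x)|}.ncard : ℝ) ≤ (N : ℝ) ^ ((k : ℝ) - c) := by
  classical
  obtain ⟨A₀, c₀, hA₀, hc₀, N₁, hN₁⟩ := uniform r (κ + 1) (ε / 2) (by positivity) (by positivity)
  set C : ℝ := max A₀ (2 / ε) with hC
  have hC0 : 0 < C := lt_max_of_lt_left hA₀
  have hK₁ : ∃ K₁ : ℕ, ∀ K : ℕ, K₁ ≤ K →
      ((2 : ℝ) ^ (2 ^ (r * k)) * 1 + 2 ^ (r * k) * (2 * (r * k)) : ℝ) ≤ (K : ℝ) ^ (ε / 2) := by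
    have := ((tendsto_rpow_atTop (by positivity : 0 < ε / 2)).comp
      tendsto_natCast_atTop_atTop).eventually_ge_atTop
        ((2 : ℝ) ^ (2 ^ (r * k)) * 1 + 2 ^ (r * k) * (2 * (r * k)) : ℝ)
    exact Filter.eventually_atTop.1 this
  obtain ⟨K₁, hK₁⟩ := hK₁
  set K₂ : ℕ := max (max K₀ K₁) (2 ^ (2 ^ (r * k))) with hK₂
  have hlim := ((tendsto_rpow_atTop hC0).comp (Real.tendsto_log_atTop.comp
    tendsto_natCast_atTop_atTop)).eventually_ge_atTop (K₂ : ℝ)
  have hlimA := ((tendsto_rpow_atTop hA₀).comp (Real.tendsto_log_atTop.comp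
    tendsto_natCast_atTop_atTop)).eventually_ge_atTop (K₂ : ℝ)
  have hlim2 := (Real.tendsto_log_atTop.comp tendsto_natCast_atTop_atTop).eventually_ge_atTop (1 : ℝ)
  have hlim3 := ((tendsto_rpow_atTop (by positivity : 0 < c₀ / 2)).comp
    tendsto_natCast_atTop_atTop).eventually_ge_atTop (k * 3 ^ k : ℝ)
  obtain ⟨N₂, hN₂⟩ := Filter.eventually_atTop.1 (hlim.and (hlimA.and (hlim2.and hlim3)))
  refine ⟨C, c₀ / 2, hC0, by positivity, max N₁ N₂, fun N hN α Λ T E hΛ => ?_⟩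
  have hNN₁ : N₁ ≤ N := le_trans (le_max_left _ _) hN
  obtain ⟨hL, hLA, hL1, hL3⟩ := hN₂ N (le_trans (le_max_right _ _) hN)
  simp only [Function.comp_apply] at hL hLA hL1 hL3
  have hN1 : (1 : ℝ) ≤ N := by
    by_contra h
    push Not at h
    have h0 : N = 0 := by
      have : (N : ℝ) < 1 := h
      have : N < 1 := by exact_mod_cast this
      omega
    rw [h0] at hL1
    simp at hL1
    linarith
  have hN0 : (0 : ℝ) < N := by linarith
  -- the bad sets
  set Bad : Fin k → (Fin k → ℤ) → Finset ℤ := fun j v => (Icc (-(N : ℤ)) N).filter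
    (fun D => ∃ y : ℕ, (Real.log N) ^ A₀ ≤ y ∧ (y : ℝ) ≤ (N : ℝ) ^ c₀ ∧
      ∃ l ∈ Λ y ×ˢ ((univ : Finset (Finset (Fin r × Fin k))).filter (fun S => (fib S j).Nonempty)),
        √((X (E l.1) (T l.1 y)).card : ℝ) * (y : ℝ) ^ (ε / 2) <
        |SD (X (E l.1) (T l.1 y)) (fun τ => co (E l.1) l.2 τ * ∏ z ∈ l.2.filter (fun z => z.2 ≠ j),
          (sym v τ z : ℝ)) (pr (fib l.2 j)) D|) with hBaddef
  have hBad : ∀ j v, ((Bad j v).card : ℝ) ≤ (N : ℝ) ^ (1 - c₀) := by
    intro j v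
    refine hN₁ N hNN₁ (Fin r → ℕ) (α × Finset (Fin r × Fin k))
      (fun y => Λ y ×ˢ ((univ : Finset (Finset (Fin r × Fin k))).filter (fun S => (fib S j).Nonempty)))
      (fun y l => X (E l.1) (T l.1 y)) (fun _ l τ => co (E l.1) l.2 τ *
        ∏ z ∈ l.2.filter (fun z => z.2 ≠ j), (sym v τ z : ℝ)) (fun _ l => pr (fib l.2 j)) ?_
    intro y hy1 hy2
    have hyK : K₂ ≤ y := by exact_mod_cast le_trans hLA hy1
    have hyK0 : K₀ ≤ y := le_trans (le_trans (le_max_left _ _) (le_max_left _ _)) hyK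
    have hy2k : (2 ^ 2 ^ (r * k) : ℕ) ≤ y := le_trans (le_max_right _ _) hyK
    have hy0 : (0 : ℝ) < y := by
      have : 0 < y := lt_of_lt_of_le (by positivity) hy2k
      exact_mod_cast this
    constructor
    · rw [card_product]
      push_cast
      rw [Real.rpow_add hy0, Real.rpow_one]
      refine mul_le_mul (hΛ y hyK0).1 ?_ (by positivity) (by positivity)
      have h1 : ((univ : Finset (Finset (Fin r × Fin k))).filter (fun S => (fib S j).Nonempty)).card ≤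
          2 ^ (r * k) := by
        refine (card_filter_le _ _).trans ?_
        rw [card_univ, Fintype.card_finset, Fintype.card_prod, Fintype.card_fin, Fintype.card_fin]
      have h2 : 2 ^ (r * k) ≤ y := le_trans (Nat.lt_two_pow_self).le hy2k
      exact_mod_cast h1.trans h2
    · rintro ⟨l, S⟩ hl
      simp only
      obtain ⟨hl1, hl2⟩ := mem_product.1 hl
      have hSj : (fib S j).Nonempty := (mem_filter.1 hl2).2
      obtain ⟨hG1, hG2, hG3⟩ := (hΛ y hyK0).2 l hl1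
      have hXT : X (E l) (T l y) ⊆ T l y := fun τ hτ => (mem_X.1 hτ).1
      refine ⟨(card_le_card hXT).trans hG1, ?_, ?_, ?_, ?_⟩
      · intro τ hτ
        unfold pr
        apply Finset.prod_induction _ Odd (fun a b ha hb => ha.mul hb) odd_one
        intro i _
        obtain ⟨h1, h2, _⟩ := hG2 τ (hXT hτ) i
        exact h1.odd_of_ne_two h2
      · intro τ hτ
        unfold pr
        calc ∏ i ∈ fib S j, τ i ≤ ∏ _i ∈ fib S j, y :=
              prod_le_prod' fun i _ => (hG2 τ (hXT hτ) i).2.2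
          _ = y ^ (fib S j).card := by rw [prod_const]
          _ ≤ y ^ r := by
              apply Nat.pow_le_pow_right
              · exact_mod_cast hy0
              · have := card_le_univ (fib S j)
                simpa using this
      · exact indep_sub (hG3 _ hSj) hXT
      · intro τ _
        rw [abs_mul, abs_prod]
        calc |co (E l) S τ| * ∏ z ∈ S.filter (fun z => z.2 ≠ j), |(sym v τ z : ℝ)| ≤ 1 * 1 := by
              refine mul_le_mul (co_abs _ _ _) ?_ (prod_nonneg fun _ _ => abs_nonneg _) zero_le_one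
              apply prod_le_one (fun _ _ => abs_nonneg _)
              intro z _
              exact sym_abs v τ z
          _ = 1 := one_mul 1
  have hslice := slice k N Bad ((N : ℝ) ^ (1 - c₀)) (by positivity) hBad
  have hfinal : (k : ℝ) * ((2 * N + 1) ^ (k - 1) * (N : ℝ) ^ (1 - c₀)) ≤ (N : ℝ) ^ ((k : ℝ) - c₀ / 2) := by
    rcases Nat.eq_zero_or_pos k with hk | hk
    · subst hk
      simp only [Nat.cast_zero, zero_mul]
      positivity
    · have h1 : (2 * (N : ℝ) + 1) ^ (k - 1) ≤ (3 * N) ^ (k - 1) := by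
        apply pow_le_pow_left₀ (by positivity)
        linarith
      have h2 : (3 * (N : ℝ)) ^ (k - 1) = 3 ^ (k - 1) * (N : ℝ) ^ ((k : ℝ) - 1) := by
        rw [mul_pow]
        congr 1
        rw [← Real.rpow_natCast]
        congr 1
        rw [Nat.cast_sub hk]
        simp
      have h3 : (3 : ℝ) ^ (k - 1) ≤ 3 ^ k := pow_le_pow_right₀ (by norm_num) (by omega)
      calc (k : ℝ) * ((2 * N + 1) ^ (k - 1) * (N : ℝ) ^ (1 - c₀))
          ≤ k * ((3 ^ k * (N : ℝ) ^ ((k : ℝ) - 1)) * (N : ℝ) ^ (1 - c₀)) := by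
            refine mul_le_mul_of_nonneg_left ?_ (Nat.cast_nonneg _)
            refine mul_le_mul_of_nonneg_right ?_ (by positivity)
            rw [h2] at h1
            refine h1.trans (mul_le_mul_of_nonneg_right h3 (by positivity))
        _ = (k * 3 ^ k) * ((N : ℝ) ^ ((k : ℝ) - 1) * (N : ℝ) ^ (1 - c₀)) := by ring
        _ = (k * 3 ^ k) * (N : ℝ) ^ ((k : ℝ) - c₀) := by
            rw [← Real.rpow_add hN0]; congr 2; ring
        _ ≤ (N : ℝ) ^ (c₀ / 2) * (N : ℝ) ^ ((k : ℝ) - c₀) :=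
            mul_le_mul_of_nonneg_right hL3 (by positivity)
        _ = _ := by rw [← Real.rpow_add hN0]; congr 1; ring
  refine le_trans ?_ (hslice.trans hfinal)
  rw [← Set.ncard_coe_finset]
  refine Nat.cast_le.2 (Set.ncard_le_ncard ?_ (Finset.finite_toSet _))
  intro D hD
  obtain ⟨hD0, x, hx1, hx2, l, hl, hlt⟩ := hD
  rw [mem_coe, mem_filter]
  refine ⟨?_, ?_⟩
  · rw [Fintype.mem_piFinset]
    intro j
    exact mem_Icc.2 (abs_le.1 (hD0 j).2)
  by_contra hcon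
  push Not at hcon
  apply absurd hlt
  rw [not_lt]
  have hxA : (Real.log N) ^ A₀ ≤ x :=
    le_trans (Real.rpow_le_rpow_of_exponent_le hL1 (le_max_left _ _)) hx1
  have hxc : (x : ℝ) ≤ (N : ℝ) ^ c₀ :=
    hx2.trans (Real.rpow_le_rpow_of_exponent_le hN1 (by linarith))
  have hxK : K₂ ≤ x := by exact_mod_cast le_trans hL hx1
  have hxK0 : K₀ ≤ x := le_trans (le_trans (le_max_left _ _) (le_max_left _ _)) hxK
  have hxK1 : K₁ ≤ x := le_trans (le_trans (le_max_right _ _) (le_max_left _ _)) hxK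
  have hGood := (hΛ x hxK0).2 l hl
  have hTp : ∀ τ ∈ T l x, ∀ i, (τ i).Prime := fun τ hτ i => (hGood.2.1 τ hτ i).1
  have hx0 : (0 : ℝ) < x := by
    have : (0 : ℝ) < (Real.log N) ^ C := Real.rpow_pos_of_pos (by linarith) _
    linarith
  have hxε : Real.log N ≤ (x : ℝ) ^ (ε / 2) := by
    have h1 : (Real.log N) ^ (2 / ε) ≤ x :=
      le_trans (Real.rpow_le_rpow_of_exponent_le hL1 (le_max_right _ _)) hx1
    calc Real.log N = ((Real.log N) ^ (2 / ε)) ^ (ε / 2) := by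
          rw [← Real.rpow_mul (by linarith)]
          rw [show 2 / ε * (ε / 2) = 1 by field_simp, Real.rpow_one]
      _ ≤ _ := Real.rpow_le_rpow (by positivity) h1 (by positivity)
  set P := X (E l) (T l x) with hP
  have hPT : P ⊆ T l x := fun τ hτ => (mem_X.1 hτ).1
  set b := (x : ℝ) ^ (ε / 2) with hb
  have hb0 : 0 < b := Real.rpow_pos_of_pos hx0 _
  have hs0 : 0 ≤ √(P.card : ℝ) := Real.sqrt_nonneg _
  have hTS : ∀ S ∈ (univ : Finset (Finset (Fin r × Fin k))).erase ∅,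
      |TS (E l) (T l x) D S| ≤ √(P.card : ℝ) * b := by
    intro S hS
    have hSn : S.Nonempty := nonempty_iff_ne_empty.2 (ne_of_mem_erase hS)
    obtain ⟨⟨i, j⟩, hj⟩ := hSn
    by_contra hlt'
    rw [not_le] at hlt'
    apply hcon j
    rw [hBaddef, mem_filter]
    refine ⟨mem_Icc.2 (abs_le.1 (hD0 j).2), x, hxA, hxc, (l, S), ?_, ?_⟩
    · rw [mem_product]
      exact ⟨hl, mem_filter.2 ⟨mem_univ _, ⟨i, mem_filter.2 ⟨mem_univ _, hj⟩⟩⟩⟩
    · rw [TS_eq (E l) (T l x) hTp D S j] at hlt'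
      exact hlt'
  have hdiv : ∀ z : Fin r × Fin k, ((P.filter (fun τ : Fin r → ℕ => (τ z.1 : ℤ) ∣ D z.2)).card : ℝ) ≤
      √(P.card : ℝ) * (2 * b) := by
    intro z
    rcases P.eq_empty_or_nonempty with hPe | hPn
    · rw [hPe]; simp
    · have h1 : (1 : ℝ) ≤ √(P.card : ℝ) := by
        rw [Real.one_le_sqrt]
        exact_mod_cast hPn.card_pos
      have h2 := few_div_tup hGood P hPT z.1 (D z.2) (hD0 z.2).1
      have h3 : Real.log ((D z.2).natAbs : ℝ) ≤ b := by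
        refine le_trans ?_ hxε
        apply Real.log_le_log
        · have := Int.natAbs_pos.2 (hD0 z.2).1
          exact_mod_cast this
        · have : ((D z.2).natAbs : ℤ) ≤ N := by rw [Int.natCast_natAbs]; exact (hD0 z.2).2
          exact_mod_cast this
      nlinarith
  have e2 : (x : ℝ) ^ ε = b * b := by
    rw [hb, ← Real.rpow_add hx0]; congr 1; ring
  rw [e2]
  have hbig := hK₁ x hxK1
  refine (dev (E l) (T l x) hTp D).trans ?_
  have h4 : ∑ S ∈ (univ : Finset (Finset (Fin r × Fin k))).erase ∅, |TS (E l) (T l x) D S| ≤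
      2 ^ (2 ^ (r * k)) * (√(P.card : ℝ) * b) := by
    calc ∑ S ∈ (univ : Finset (Finset (Fin r × Fin k))).erase ∅, |TS (E l) (T l x) D S|
        ≤ ∑ _S ∈ (univ : Finset (Finset (Fin r × Fin k))).erase ∅, √(P.card : ℝ) * b := sum_le_sum hTS
      _ ≤ ∑ _S : Finset (Fin r × Fin k), √(P.card : ℝ) * b :=
          sum_le_sum_of_subset_of_nonneg (erase_subset _ _) fun _ _ _ => by positivity
      _ = 2 ^ (r * k) * (√(P.card : ℝ) * b) := by
          rw [sum_const, card_univ, Fintype.card_finset, Fintype.card_prod, Fintype.card_fin,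
            Fintype.card_fin, nsmul_eq_mul]
          push_cast; ring
      _ ≤ _ := by
          refine mul_le_mul_of_nonneg_right ?_ (by positivity)
          exact pow_le_pow_right₀ (by norm_num) (Nat.lt_two_pow_self).le
  have h5 : ∑ z : Fin r × Fin k, ((P.filter (fun τ : Fin r → ℕ => (τ z.1 : ℤ) ∣ D z.2)).card : ℝ) ≤
      (r * k) * (√(P.card : ℝ) * (2 * b)) := by
    calc ∑ z : Fin r × Fin k, ((P.filter (fun τ : Fin r → ℕ => (τ z.1 : ℤ) ∣ D z.2)).card : ℝ)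
        ≤ ∑ _z : Fin r × Fin k, √(P.card : ℝ) * (2 * b) := sum_le_sum fun z _ => hdiv z
      _ = _ := by simp
  have h2k : (0 : ℝ) < 2 ^ (r * k) := by positivity
  calc ∑ S ∈ (univ : Finset (Finset (Fin r × Fin k))).erase ∅, |TS (E l) (T l x) D S| +
      2 ^ (r * k) * ∑ z : Fin r × Fin k, ((P.filter (fun τ : Fin r → ℕ => (τ z.1 : ℤ) ∣ D z.2)).card : ℝ)
      ≤ 2 ^ (2 ^ (r * k)) * (√(P.card : ℝ) * b) + 2 ^ (r * k) * ((r * k) * (√(P.card : ℝ) * (2 * b))) :=
        add_le_add h4 (mul_le_mul_of_nonneg_left h5 h2k.le)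
    _ = √(P.card : ℝ) * b * (2 ^ (2 ^ (r * k)) * 1 + 2 ^ (r * k) * (2 * (r * k))) := by ring
    _ ≤ √(P.card : ℝ) * b * b := mul_le_mul_of_nonneg_left hbig (by positivity)
    _ = √(P.card : ℝ) * (b * b) := by ring

end Pool.Agent.Q233.TL.Tup
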